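import Pool.Agent.Helper95.RK.GoalsC
import Pool.Agent.Helper95.RK.Basics

/-! # EXT5K: the extension theorem (chains of bounded pairs) -/

open Complex Metric Set Filter Topology MeasureTheory
open scoped ContDiff ComplexConjugate ComplexOrder Manifold Matrix

namespace Pool.Agent.Helper70.RK

open Pool.Agent.Helper10.SP
open Pool.Agent.Helper95.Lin Pool.Agent.Helper16.Abund Pool.Agent.Helper92.Orb
open Pool.Agent.Helper95.RK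

universe u v

variable {b k N : ℕ} {G : Type u} [Group G]

/-- The abstract properties of the pseudogroup used in the chain argument. -/
structure ChK (c : Fin N → Cn b) (Q : G → Set (Cn b) → TriK b k → Prop) (C₁ C₂ δ₁ : ℝ) :
    Prop where
  mono : ∀ γ U U' t, Q γ U t → IsOpen U' → U' ⊆ U → Q γ U' t
  ne : ∀ γ U t, Q γ U t → ∀ z ∈ U, (t.A z).det ≠ 0
  lip : ∀ γ V t, Q γ V t → Convex ℝ V → V ⊆ Bd c 4 → MapsTo t.g V (Bd c 4) →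
    (∀ z ∈ V, MB (t.A z) C₁ ∧ MB (t.A z)⁻¹ C₁) ∧
    ∀ x ∈ V, ∀ y ∈ V, ‖t.g x - t.g y‖ ≤ C₁ * ‖x - y‖
  one : ∀ U, IsOpen U → U ⊆ Bd c 5 → Q 1 U TriK.one
  comp : ∀ γ γ' U U' U'' t s, Q γ U t → Q γ' U' s → IsOpen U'' → U'' ⊆ U' → MapsTo s.g U'' U →
    Q (γ * γ') U'' (t.comp s)
  uniq : ∀ (γ : G) (z₀ : Cn b) (r : ℝ) t s, Q γ (ball z₀ r) t → Q γ (ball z₀ r) s →
    ∀ z ∈ ball z₀ r, ∀ w : Cn k, t.g z = s.g z → t.ap z w = s.ap z w → t.EqOn s (ball z₀ r)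
  bp : ∀ γ γ' z₀ U U' T s w, Q γ U T → z₀ ∈ U → Q γ' U' s → z₀ ∈ U' → T.g z₀ ∈ Bd c 3 →
    s.g z₀ ∈ Bd c 3 → ‖T.ap z₀ w‖ ≤ C₁ + 1 → ‖s.ap z₀ w‖ ≤ C₁ + 1 →
    ∃ r, Q (γ' * γ⁻¹) (ball (T.g z₀) δ₁) r ∧ MapsTo r.g (ball (T.g z₀) δ₁) (Bd c 4) ∧
      (∀ z ∈ ball (T.g z₀) δ₁, ‖r.β z‖ ≤ C₂) ∧ r.g (T.g z₀) = s.g z₀ ∧
      r.ap (T.g z₀) (T.ap z₀ w) = s.ap z₀ w
  cov : ∀ z₀ ∈ Bd c 3, ∀ w : Cn k, ∃ γ, ∃ ρ > 0, ∃ s, Q γ (ball z₀ ρ) s ∧ s.g z₀ ∈ Bd c 1 ∧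
    ‖s.ap z₀ w‖ < 1

theorem bd_mono (c : Fin N → Cn b) {r s : ℝ} (h : r ≤ s) : Bd c r ⊆ Bd c s := by
  intro x hx
  simp only [Bd, mem_iUnion] at hx ⊢
  obtain ⟨i, hi⟩ := hx
  exact ⟨i, ball_subset_ball h hi⟩

theorem ball_bd (c : Fin N → Cn b) {r s t : ℝ} {z : Cn b} (hz : z ∈ Bd c r) (h : r + s ≤ t) :
    ball z s ⊆ Bd c t := by
  intro x hx
  simp only [Bd, mem_iUnion, mem_ball] at hz hx ⊢
  obtain ⟨i, hi⟩ := hz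
  exact ⟨i, by linarith [dist_triangle x z (c i)]⟩

theorem ap_comp (t s : TriK b k) (z : Cn b) (w : Cn k) :
    (t.comp s).ap z w = t.ap (s.g z) (s.ap z w) := by
  simp only [TriK.ap, TriK.comp, Matrix.mulVec_add, Matrix.mulVec_mulVec, add_assoc]

/-- One step of the chain. -/
theorem stepK {c : Fin N → Cn b} {Q : G → Set (Cn b) → TriK b k → Prop} {C₁ C₂ δ₁ : ℝ}
    (H : ChK c Q C₁ C₂ δ₁) (hC₁ : 1 ≤ C₁) {δ : ℝ} (hδ : 0 < δ) (hδ1 : δ ≤ 1)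
    (hδδ : C₁ * δ ≤ δ₁) {z₀ : Cn b} (hz₀ : z₀ ∈ Bd c 3) {γ γ' : G} {T s : TriK b k} {ρ : ℝ}
    (hρ : 0 < ρ) (hT : Q γ (ball z₀ δ) T) (hT4 : MapsTo T.g (ball z₀ δ) (Bd c 4))
    (hT3 : T.g z₀ ∈ Bd c 3) (hs : Q γ' (ball z₀ ρ) s) (hs3 : s.g z₀ ∈ Bd c 3) {w : Cn k}
    (hTw : ‖T.ap z₀ w‖ ≤ C₁ + 1) (hsw : ‖s.ap z₀ w‖ ≤ C₁ + 1) :
    ∃ S : TriK b k, Q γ' (ball z₀ δ) S ∧ MapsTo S.g (ball z₀ δ) (Bd c 4) ∧
      S.EqOn s (ball z₀ (min δ ρ)) ∧ ∀ x ∈ ball z₀ δ, ‖S.q x‖ ≤ ‖T.q x‖ + C₁ * C₂ := by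
  have hz₀δ : z₀ ∈ ball z₀ δ := mem_ball_self hδ
  have hz₀ρ : z₀ ∈ ball z₀ ρ := mem_ball_self hρ
  have hb4 : ball z₀ δ ⊆ Bd c 4 := ball_bd c hz₀ (by linarith)
  obtain ⟨hTa, hTl⟩ := H.lip γ _ T hT (convex_ball _ _) hb4 hT4
  obtain ⟨r, hr, hr4, hrβ, hrg, hra⟩ :=
    H.bp γ γ' z₀ _ _ T s w hT hz₀δ hs hz₀ρ hT3 hs3 hTw hsw
  have hmaps : MapsTo T.g (ball z₀ δ) (ball (T.g z₀) δ₁) := by
    intro x hx
    rw [mem_ball, dist_eq_norm]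
    have h1 := hTl x hx z₀ hz₀δ
    have h2 : ‖x - z₀‖ < δ := by simpa [dist_eq_norm] using hx
    nlinarith [mul_lt_mul_of_pos_left h2 (by linarith : (0 : ℝ) < C₁)]
  have hS : Q γ' (ball z₀ δ) (r.comp T) := by
    have := H.comp _ _ _ _ _ _ _ hr hT isOpen_ball subset_rfl hmaps
    simpa using this
  have hS4 : MapsTo (r.comp T).g (ball z₀ δ) (Bd c 4) := fun x hx => hr4 (hmaps hx)
  obtain ⟨hSa, -⟩ := H.lip γ' _ _ hS (convex_ball _ _) hb4 hS4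
  refine ⟨r.comp T, hS, hS4, ?_, ?_⟩
  · have hm : 0 < min δ ρ := lt_min hδ hρ
    refine H.uniq γ' z₀ (min δ ρ) _ _
      (H.mono _ _ _ _ hS isOpen_ball (ball_subset_ball (min_le_left _ _)))
      (H.mono _ _ _ _ hs isOpen_ball (ball_subset_ball (min_le_right _ _)))
      z₀ (mem_ball_self hm) w ?_ ?_
    · simpa [TriK.comp] using hrg
    · rw [ap_comp]; exact hra
  · intro x hx
    obtain ⟨h1, h2⟩ := hSa x hx
    have hC : (0 : ℝ) < C₁ := by linarith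
    have hSdet : ((r.comp T).A x).det ≠ 0 := H.ne _ _ _ hS x hx
    have hmul : (r.comp T).A x = r.A (T.g x) * T.A x := rfl
    have hrdet : (r.A (T.g x)).det ≠ 0 := by
      intro h
      apply hSdet
      rw [hmul, Matrix.det_mul, h, zero_mul]
    have hq : (r.comp T).q x = T.q x + ((r.comp T).A x)⁻¹ *ᵥ r.β (T.g x) := by
      have e1 : (r.comp T).q x = ((r.comp T).A x)⁻¹ *ᵥ (r.A (T.g x) *ᵥ T.β x + r.β (T.g x)) := rfl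
      have e2 : ((r.comp T).A x)⁻¹ *ᵥ (r.A (T.g x) *ᵥ T.β x) = T.q x := by
        rw [Matrix.mulVec_mulVec, hmul, Matrix.mul_inv_rev, Matrix.mul_assoc,
          Matrix.nonsing_inv_mul _ (isUnit_iff_ne_zero.2 hrdet), Matrix.mul_one]
        rfl
      rw [e1, Matrix.mulVec_add, e2]
    rw [hq]
    refine (norm_add_le _ _).trans ?_
    gcongr
    exact (h2 _).trans (by gcongr; exact hrβ _ (hmaps hx))

/-- The chain. -/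
theorem chainK {c : Fin N → Cn b} {Q : G → Set (Cn b) → TriK b k → Prop} {C₁ C₂ δ₁ : ℝ}
    (H : ChK c Q C₁ C₂ δ₁) (hC₁ : 1 ≤ C₁) {δ : ℝ} (hδ : 0 < δ) (hδ1 : δ ≤ 1)
    (hδδ : C₁ * δ ≤ δ₁) {z₀ : Cn b} (hz₀ : z₀ ∈ Bd c 3) (n : ℕ) :
    ∀ w : Cn k, ‖w‖ ≤ n → ∃ (γ : G) (S : TriK b k), Q γ (ball z₀ δ) S ∧
      MapsTo S.g (ball z₀ δ) (Bd c 4) ∧ S.g z₀ ∈ Bd c 1 ∧ ‖S.ap z₀ w‖ < 1 ∧
      ∀ x ∈ ball z₀ δ, ‖S.q x‖ ≤ (n + 1) * (C₁ * C₂) := by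
  have hz₀δ : z₀ ∈ ball z₀ δ := mem_ball_self hδ
  have hb4 : ball z₀ δ ⊆ Bd c 4 := ball_bd c hz₀ (by linarith)
  induction n with
  | zero =>
    intro w hw
    have hw0 : w = 0 := by
      rw [Nat.cast_zero] at hw
      exact norm_le_zero_iff.mp hw
    subst hw0
    obtain ⟨γ, ρ, hρ, s, hs, hs1, hsw⟩ := H.cov z₀ hz₀ 0
    have h1 : Q 1 (ball z₀ δ) TriK.one :=
      H.one _ isOpen_ball (hb4.trans (bd_mono c (by norm_num)))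
    obtain ⟨S, hS, hS4, hSe, hSq⟩ := stepK H hC₁ hδ hδ1 hδδ hz₀ hρ h1
      (fun x hx => by simpa [TriK.one] using hb4 hx) (by simpa [TriK.one] using hz₀) hs
      (bd_mono c (by norm_num) hs1) (w := 0) (by simp [TriK.one, TriK.ap]; linarith) (by linarith)
    obtain ⟨e1, e2, e3⟩ := hSe z₀ (mem_ball_self (lt_min hδ hρ))
    refine ⟨γ, S, hS, hS4, e1 ▸ hs1, by rw [TriK.ap, e2, e3]; exact hsw, fun x hx => ?_⟩
    have := hSq x hx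
    simpa [TriK.q, TriK.one] using this
  | succ n ih =>
    intro w hw
    have hk : (0 : ℝ) < (n : ℝ) + 1 := by positivity
    set w' : Cn k := ((n / (n + 1) : ℝ) : ℂ) • w with hw'
    have h1 : ‖w'‖ ≤ n := by
      rw [hw', norm_smul, Complex.norm_real, Real.norm_of_nonneg (by positivity)]
      push_cast at hw
      calc (n : ℝ) / (n + 1) * ‖w‖ ≤ (n : ℝ) / (n + 1) * (n + 1) := by gcongr
        _ = n := by field_simp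
    have h2 : ‖w - w'‖ ≤ 1 := by
      have : w - w' = ((1 / (n + 1) : ℝ) : ℂ) • w := by
        rw [hw']
        have hk' : ((n : ℂ) + 1) ≠ 0 := by exact_mod_cast hk.ne'
        rw [sub_eq_iff_eq_add, ← add_smul]
        have : (((1 / (n + 1) : ℝ) : ℂ) + ((n / (n + 1) : ℝ) : ℂ)) = 1 := by
          push_cast
          field_simp
          ring
        rw [this, one_smul]
      rw [this, norm_smul, Complex.norm_real, Real.norm_of_nonneg (by positivity)]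
      push_cast at hw
      calc 1 / ((n : ℝ) + 1) * ‖w‖ ≤ 1 / ((n : ℝ) + 1) * (n + 1) := by gcongr
        _ = 1 := by field_simp
    obtain ⟨γ, T, hT, hT4, hT1, hTw, hTq⟩ := ih w' h1
    obtain ⟨hTa, -⟩ := H.lip γ _ T hT (convex_ball _ _) hb4 hT4
    obtain ⟨γ', ρ, hρ, s, hs, hs1, hsw⟩ := H.cov z₀ hz₀ w
    have h3 : ‖T.ap z₀ w‖ ≤ C₁ + 1 := by
      have e : T.ap z₀ w = T.A z₀ *ᵥ (w - w') + T.ap z₀ w' := by
        simp only [TriK.ap, Matrix.mulVec_sub]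
        abel
      rw [e]
      refine (norm_add_le _ _).trans ?_
      have h4 := (hTa z₀ hz₀δ).1 (w - w')
      have h5 : C₁ * ‖w - w'‖ ≤ C₁ * 1 := by gcongr
      linarith
    obtain ⟨S, hS, hS4, hSe, hSq⟩ := stepK H hC₁ hδ hδ1 hδδ hz₀ hρ hT hT4
      (bd_mono c (by norm_num) hT1) hs (bd_mono c (by norm_num) hs1) h3 (by linarith)
    obtain ⟨e1, e2, e3⟩ := hSe z₀ (mem_ball_self (lt_min hδ hρ))
    refine ⟨γ', S, hS, hS4, e1 ▸ hs1, by rw [TriK.ap, e2, e3]; exact hsw, fun x hx => ?_⟩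
    have := hSq x hx
    have h4 := hTq x hx
    push_cast
    linarith

/-- The extension theorem from the abstract properties. -/
theorem ext_of_chK {c : Fin N → Cn b} {Q : G → Set (Cn b) → TriK b k → Prop} {C₁ C₂ δ₁ : ℝ}
    (H : ChK c Q C₁ C₂ δ₁) (hC₁ : 1 ≤ C₁) (hC₂ : 0 ≤ C₂) (hδ₁ : 0 < δ₁) :
    ∃ δ C : ℝ, 0 < δ ∧ 1 ≤ C ∧ ∀ z₀ ∈ Bd c 3, ∀ γ U t, IsOpen U → Q γ U t → z₀ ∈ U →
      t.g z₀ ∈ Bd c 3 → ∃ t' U', Q γ (ball z₀ δ) t' ∧ IsOpen U' ∧ z₀ ∈ U' ∧ U' ⊆ U ∧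
      t'.EqOn t U' ∧ (∀ x ∈ ball z₀ δ, t'.g x ∈ Bd c 4 ∧ MB (t'.A x) C ∧ MB (t'.A x)⁻¹ C ∧
        ‖t'.β x‖ ≤ C * (1 + ‖t'.β z₀‖)) ∧
      ∀ x ∈ ball z₀ δ, ∀ y ∈ ball z₀ δ, ‖t'.g x - t'.g y‖ ≤ C * ‖x - y‖ := by
  have hC0 : (0 : ℝ) < C₁ := by linarith
  set δ := min (δ₁ / C₁) 1 with hδdef
  have hδ : 0 < δ := lt_min (div_pos hδ₁ hC0) one_pos
  have hδ1 : δ ≤ 1 := min_le_right _ _
  have hδδ : C₁ * δ ≤ δ₁ := by
    have : δ ≤ δ₁ / C₁ := min_le_left _ _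
    calc C₁ * δ ≤ C₁ * (δ₁ / C₁) := by gcongr
      _ = δ₁ := by field_simp
  set K := C₁ * C₂ with hK
  have hK0 : 0 ≤ K := by positivity
  refine ⟨δ, C₁ + 3 * C₁ * K + C₁ ^ 2 * K, hδ, ?_, ?_⟩
  · nlinarith [mul_nonneg hC0.le hK0, mul_nonneg (sq_nonneg C₁) hK0]
  have hCC : C₁ ≤ C₁ + 3 * C₁ * K + C₁ ^ 2 * K := by
    nlinarith [mul_nonneg hC0.le hK0, mul_nonneg (sq_nonneg C₁) hK0]
  intro z₀ hz₀ γ U t hU ht hz₀U htg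
  have hz₀δ : z₀ ∈ ball z₀ δ := mem_ball_self hδ
  have hb4 : ball z₀ δ ⊆ Bd c 4 := ball_bd c hz₀ (by linarith)
  obtain ⟨ρ, hρ, hρU⟩ := Metric.isOpen_iff.mp hU z₀ hz₀U
  have htρ := H.mono _ _ _ _ ht isOpen_ball hρU
  set w : Cn k := -((t.A z₀)⁻¹ *ᵥ t.β z₀) with hw
  set n : ℕ := ⌈‖w‖⌉₊ with hn
  obtain ⟨γ₁, T, hT, hT4, hT1, hTw, hTq⟩ := chainK H hC₁ hδ hδ1 hδδ hz₀ n w (Nat.le_ceil _)
  have ha : (t.A z₀).det ≠ 0 := H.ne _ _ _ ht z₀ hz₀U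
  obtain ⟨S, hS, hS4, hSe, hSq⟩ : ∃ S : TriK b k, Q γ (ball z₀ δ) S ∧
      MapsTo S.g (ball z₀ δ) (Bd c 4) ∧
      S.EqOn t (ball z₀ (min δ ρ)) ∧ ∀ x ∈ ball z₀ δ, ‖S.q x‖ ≤ ‖T.q x‖ + C₁ * C₂ := by
    refine stepK H hC₁ hδ hδ1 hδδ hz₀ hρ hT hT4 (bd_mono c (by norm_num) hT1) htρ htg
      (w := w) (by linarith) ?_
    have : t.ap z₀ w = 0 := by
      rw [TriK.ap, hw, Matrix.mulVec_neg, Matrix.mulVec_mulVec,
        Matrix.mul_nonsing_inv _ (isUnit_iff_ne_zero.2 ha), Matrix.one_mulVec, neg_add_cancel]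
    rw [this, norm_zero]
    linarith
  obtain ⟨hSa, hSl⟩ := H.lip γ _ S hS (convex_ball _ _) hb4 hS4
  have hm : 0 < min δ ρ := lt_min hδ hρ
  refine ⟨S, ball z₀ (min δ ρ), hS, isOpen_ball, mem_ball_self hm,
    (ball_subset_ball (min_le_right _ _)).trans hρU, hSe, ?_, ?_⟩
  · intro x hx
    obtain ⟨h1, h2⟩ := hSa x hx
    refine ⟨hS4 hx, h1.mono hCC, h2.mono hCC, ?_⟩
    obtain ⟨e1, e2, e3⟩ := hSe z₀ (mem_ball_self hm)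
    have hw' : ‖w‖ ≤ C₁ * ‖S.β z₀‖ := by
      rw [hw, norm_neg, ← e2, ← e3]
      exact (hSa z₀ hz₀δ).2 _
    have hn' : (n : ℝ) ≤ ‖w‖ + 1 := (Nat.ceil_lt_add_one (norm_nonneg _)).le
    have hq : ‖S.q x‖ ≤ (n + 2) * K := by
      have := hSq x hx
      have h3 := hTq x hx
      nlinarith
    have h6 : ‖S.β x‖ ≤ C₁ * ‖S.q x‖ := by
      have hSdet : (S.A x).det ≠ 0 := H.ne _ _ _ hS x hx
      have e4 : S.β x = S.A x *ᵥ S.q x := by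
        rw [TriK.q, Matrix.mulVec_mulVec, Matrix.mul_nonsing_inv _ (isUnit_iff_ne_zero.2 hSdet),
          Matrix.one_mulVec]
      calc ‖S.β x‖ = ‖S.A x *ᵥ S.q x‖ := by rw [← e4]
        _ ≤ C₁ * ‖S.q x‖ := h1 _
    have h7 : C₁ * ‖S.q x‖ ≤ C₁ * ((n + 2) * K) := by gcongr
    have h8 : C₁ * (((n : ℝ) + 2) * K) ≤ C₁ * (((C₁ * ‖S.β z₀‖ + 1) + 2) * K) := by
      gcongr
      linarith
    calc ‖S.β x‖ ≤ C₁ * (((C₁ * ‖S.β z₀‖ + 1) + 2) * K) := h6.trans (h7.trans h8)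
      _ = C₁ ^ 2 * K * ‖S.β z₀‖ + 3 * C₁ * K := by ring
      _ ≤ (C₁ + 3 * C₁ * K + C₁ ^ 2 * K) * (1 + ‖S.β z₀‖) := by
          have := norm_nonneg (S.β z₀)
          have h9 : 0 ≤ C₁ * K := mul_nonneg hC0.le hK0
          have h10 : 0 ≤ C₁ ^ 2 * K := mul_nonneg (sq_nonneg C₁) hK0
          nlinarith [mul_nonneg h9 this, mul_nonneg h10 this, mul_nonneg hC0.le this]
  · intro x hx y hy
    refine (hSl x hx y hy).trans ?_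
    gcongr

theorem pmapGK_mono {D : Set (Cn b)} {R : G → Cn (b + k) → Cn (b + k) → Prop} {γ : G}
    {U U' : Set (Cn b)} {t : TriK b k} (h : PMapGK D R γ U t) (hU' : IsOpen U') (hs : U' ⊆ U) :
    PMapGK D R γ U' t := by
  obtain ⟨-, h1, ⟨h2, h3, h4⟩, h5, h6⟩ := h
  exact ⟨hU', hs.trans h1, ⟨h2.mono hs, fun i j => (h3 i j).mono hs, h4.mono hs⟩,
    fun z hz => h5 z (hs hz), fun z hz => h6 z (hs hz)⟩

theorem ptK_inj {z z' : Cn b} {w w' : Cn k} (h : ptK z w = ptK z' w') : z = z' ∧ w = w' :=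
  ⟨by rw [← base_ptK z w, h, base_ptK], by rw [← fib_ptK z w, h, fib_ptK]⟩

/-- EXT5K. -/
theorem ext5k (hLOCP : S_LOCPK.{u, v}) (hPAX : S_PAXK.{u, v}) (hLIPP : S_LIPPK)
    (hBP : S_BPK.{u, v}) : S_EXT5K.{u, v} := by
  intro b k N G M _ _ _ _ _ _ h q v hd hfl c E Φ Hf hE
  obtain ⟨C₁, hC₁, hL⟩ := hLIPP c 5 4 Φ Hf (by norm_num) hE.smooth hE.pos
    (fun i j => (hE.smH i j).continuousOn) hE.posH
  obtain ⟨δ₁, hδ₁, C₂, hbp⟩ := hBP hd hfl c E Φ Hf hE (C₁ + 1)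
  obtain ⟨pax1, pax2, pax3, pax4, pax5⟩ := hPAX hd hfl c 5 E Φ Hf hE
  have H : ChK c (PMapGK (Bd c 5) (RelK (G := G) c 5 E)) C₁ (max C₂ 0) δ₁ := by
    refine ⟨fun γ U U' t h hU hs => pmapGK_mono h hU hs, fun γ U t h z hz => (h.2.2.2.1 z hz).2,
      ?_, pax2, fun γ γ' U U' U'' t s => pax3 γ γ' U U' U'' t s, pax5, ?_, ?_⟩
    · intro γ V t ht hV hV4 hm
      exact hL V t ht.1 hV hV4 ht.2.2.1 hm (pax1 γ V t ht)
    · intro γ γ' z₀ U U' T s w hT hzU hs hzU' hT3 hs3 hTw hsw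
      have h1 := hT.2.2.2.2 z₀ hzU w
      have h2 := hs.2.2.2.2 z₀ hzU' w
      have hrel : RelK c 5 E (γ' * γ⁻¹) (ptK (T.g z₀) (T.ap z₀ w))
          (ptK (s.g z₀) (s.ap z₀ w)) := by
        refine ⟨h1.2.1, h2.2.1, ?_⟩
        rw [← h1.2.2, mul_smul, inv_smul_smul]
        exact h2.2.2
      obtain ⟨r, hr, hr4, hrβ, hry⟩ := hbp (γ' * γ⁻¹) _ _ hrel (by rw [base_ptK]; exact hT3)
        (by rw [base_ptK]; exact hs3) (by rw [fib_ptK]; exact hTw) (by rw [fib_ptK]; exact hsw)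
      rw [base_ptK] at hr hr4 hrβ
      rw [TriK.map, base_ptK, fib_ptK] at hry
      obtain ⟨e1, e2⟩ := ptK_inj hry
      exact ⟨r, hr, hr4, fun z hz => (hrβ z hz).trans (le_max_left _ _), e1.symm, e2.symm⟩
    · intro z₀ hz₀ w
      have hz5 : z₀ ∈ Bd c 5 := bd_mono c (by norm_num) hz₀
      obtain ⟨γ, z, hz, w', hw', he⟩ := hE.cov (E (ptK z₀ w))
      obtain ⟨ρ, hρ, t, ht, hty⟩ := hLOCP hd hfl c 5 E Φ Hf hE γ (ptK z₀ w) (ptK z w')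
        ⟨by change base (ptK z₀ w) ∈ Bd c 5; rw [base_ptK]; exact hz5,
          by change base (ptK z w') ∈ Bd c 5; rw [base_ptK]; exact bd_mono c (by norm_num) hz, he⟩
      rw [base_ptK] at ht
      rw [TriK.map, base_ptK, fib_ptK] at hty
      obtain ⟨e1, e2⟩ := ptK_inj hty
      exact ⟨γ, ρ, hρ, t, ht, e1 ▸ hz, e2 ▸ hw'⟩
  obtain ⟨δ, C, hδ, hC, hext⟩ := ext_of_chK H hC₁ (le_max_right _ _) hδ₁
  refine ⟨δ, C, hδ, hC, ?_⟩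
  rintro z₀ hz₀ U t ⟨t1, t2, t3, t6, γ, t7⟩ hzU htg
  obtain ⟨t', U', h1, h2, h3, h4, h5, h6, h7⟩ := hext z₀ hz₀ γ U t t1
    ⟨t1, t2, t3, t6, t7⟩ hzU htg
  exact ⟨t', U', ⟨h1.1, h1.2.1, h1.2.2.1, h1.2.2.2.1, γ, h1.2.2.2.2⟩, h2, h3, h4, h5, h6, h7⟩

end Pool.Agent.Helper70.RK
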