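import Pool.Agent.Helper45.RK.GoalsG

/-! # Packet RK-LCENTK: the center of the Lie algebra is not zero -/

open Complex Metric Set Filter Topology
open scoped ContDiff ComplexConjugate Matrix ComplexOrder

namespace Pool.Agent.Helper70.RK

open Pool.Agent.Helper95.Lin Pool.Agent.Helper10.SP Pool.Agent.Helper95.RK Pool.Agent.Helper45.SP
  Pool.Agent.Helper45.RK

theorem lcentk (hLLALG : S_LLALG) (hADN : S_ADNK) : S_LCENTK := by
  intro b k z₀ r A hA hV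
  obtain ⟨V₀, hV₀, z₁, hz₁, hne⟩ := hV
  obtain ⟨𝔤, i1, i2, Φ, hΦ⟩ := hLLALG hA.toLGrpK.lgrp
  have hfin : FiniteDimensional ℝ 𝔤 := hΦ.fin
  have hnil : LieRing.IsNilpotent 𝔤 :=
    (LieAlgebra.isNilpotent_iff_forall (R := ℝ)).2 fun x => hADN hA hΦ x
  obtain ⟨x₀, hx₀⟩ := (hΦ.range V₀).1 hV₀
  have hx0 : x₀ ≠ 0 := by
    rintro rfl
    rw [map_zero] at hx₀
    apply hne
    rw [← hx₀]
    rfl
  have hnt : Nontrivial 𝔤 := ⟨⟨x₀, 0, hx0⟩⟩
  have hc : Nontrivial (LieModule.maxTrivSubmodule ℝ 𝔤 𝔤) :=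
    LieModule.nontrivial_max_triv_of_isNilpotent ℝ 𝔤 𝔤
  obtain ⟨⟨x, hx⟩, hxne⟩ := exists_ne (0 : LieModule.maxTrivSubmodule ℝ 𝔤 𝔤)
  have hxne' : x ≠ 0 := fun h => hxne (Subtype.ext h)
  rw [LieModule.mem_maxTrivSubmodule] at hx
  have hVx : InLL z₀ r (bs '' A) (Φ x) := (hΦ.range _).2 ⟨x, rfl⟩
  refine ⟨Φ x, hVx, ?_, ?_⟩
  · by_contra hcon
    push Not at hcon
    apply hxne'
    apply hΦ.inj
    rw [map_zero]
    funext z
    by_cases hz : z ∈ ball z₀ r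
    · exact hcon z hz
    · exact hVx.2.1 z hz
  · intro W hW z hz
    obtain ⟨y, rfl⟩ := (hΦ.range W).1 hW
    rw [← hΦ.br, ← lie_skew, hx y, neg_zero, map_zero]
    rfl

end Pool.Agent.Helper70.RK
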