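import Pool.Agent.Helper36.RK.GoalsP
import Pool.Agent.Helper47.SP.GIND

/-!
# Packet RK-GIND0: generic independence of fields for a real Levi form
-/

open Complex Metric Set Filter Topology MeasureTheory
open scoped ContDiff ComplexConjugate ComplexOrder Manifold

namespace Pool.Agent.Helper70.RK

open Pool.Agent.Helper95.Lin Pool.Agent.Helper10.SP Pool.Agent.Helper95.RK Pool.Agent.Helper36.RK
open Pool.Agent.Helper47.SP

theorem gind0 (hLMF : S_LMF) : S_GIND0 := by
  classical
  intro b m x₀ r₀ hr₀ Φ V hΦ hpos hV hind₀ hr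
  set B2 := ball x₀ r₀ with hB2
  obtain ⟨-, -, hlm, -⟩ := hLMF B2 isOpen_ball Φ hΦ
  have hrel : ∀ z ∈ B2, ∀ lam : Fin m → ℂ, ∑ k, lam k • V k z = 0 →
      ∑ k, ((lam k).im : ℂ) • V k z = 0 := by
    intro z hz lam h
    exact rel_im Φ z (hlm z hz) (hpos z hz) (fun k => V k z) (fun k l => hr k l z hz) lam h
  -- maximal `S`
  let F : Finset (Finset (Fin m)) := Finset.univ.filter fun S =>
    ∃ z ∈ B2, LinearIndepOn ℂ (fun k => V k z) (S : Set (Fin m))
  have hne : F.Nonempty := by
    refine ⟨∅, Finset.mem_filter.2 ⟨Finset.mem_univ _, x₀, mem_ball_self hr₀, ?_⟩⟩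
    simp
  obtain ⟨S, hSF, hSmax⟩ := F.exists_max_image Finset.card hne
  obtain ⟨-, z₀, hz₀, hS⟩ := Finset.mem_filter.1 hSF
  by_cases hall : S = Finset.univ
  · refine ⟨z₀, hz₀, ?_⟩
    rw [hall, Finset.coe_univ, linearIndepOn_univ_iff] at hS
    exact hS
  exfalso
  obtain ⟨l, hl⟩ : ∃ l, l ∉ S := by
    by_contra hcon
    push Not at hcon
    exact hall (Finset.eq_univ_iff_forall.2 hcon)
  have hmax : ∀ z ∈ B2, ∀ l ∉ S, ¬ LinearIndepOn ℂ (fun k => V k z)
      ((insert l S : Finset (Fin m)) : Set (Fin m)) := by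
    intro z hz l hl hcon
    have := hSmax (insert l S) (Finset.mem_filter.2 ⟨Finset.mem_univ _, z, hz, hcon⟩)
    rw [Finset.card_insert_of_notMem hl] at this
    omega
  obtain ⟨r, hr0, hrU, d, hd, hdz⟩ := coeffs (U := B2) isOpen_ball V hV S hz₀ hS hmax hl
  -- the coefficients are real
  have hreal : ∀ z ∈ ball z₀ r, ∀ k, (d z k).im = 0 := by
    intro z hz k
    obtain ⟨hind, hd0, hsum⟩ := hdz z hz
    have h1 : ∑ k, (d z k - if k = l then 1 else 0) • V k z = 0 := by
      simp only [sub_smul, Finset.sum_sub_distrib, hsum, ite_smul, one_smul, zero_smul,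
        Finset.sum_ite_eq', Finset.mem_univ, if_true, sub_self]
    have h2 := hrel z (hrU hz) _ h1
    have h3 : ∑ k : S, ((d z k).im : ℂ) • V k z = 0 := by
      have e1 : ∑ k : S, ((d z k).im : ℂ) • V k z = ∑ k ∈ S, ((d z k).im : ℂ) • V k z :=
        Finset.sum_coe_sort S fun k => ((d z k).im : ℂ) • V k z
      rw [e1, ← h2, Finset.sum_subset (Finset.subset_univ S)]
      · refine Finset.sum_congr rfl fun k _ => ?_
        congr 2
        by_cases hk : k = l
        · simp [hk]
        · simp [hk]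
      · intro k _ hk
        rw [hd0 k hk]
        simp
    by_cases hk : k ∈ S
    · have h4 := Fintype.linearIndependent_iff.1
        (show LinearIndependent ℂ fun k : S => V k z from hind) _ h3 ⟨k, hk⟩
      exact_mod_cast h4
    · rw [hd0 k hk]; simp
  -- so constant
  have hz₀r : z₀ ∈ ball z₀ r := mem_ball_self hr0
  have hconst : ∀ z ∈ ball z₀ r, ∀ k, d z k = ((d z₀ k).re : ℂ) := by
    intro z hz k
    have h1 : d z k = d z₀ k :=
      const_of_real (f := fun z => d z k) (hd k) (fun y hy => hreal y hy k) hz hz₀r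
    rw [h1]
    apply Complex.ext
    · simp
    · simp [hreal z₀ hz₀r k]
  let x : Fin m → ℝ := fun k => (d z₀ k).re - if k = l then 1 else 0
  have hev : ∀ᶠ z in 𝓝 z₀, ∑ k, (x k : ℂ) • V k z = 0 := by
    filter_upwards [isOpen_ball.mem_nhds hz₀r] with z hz
    obtain ⟨-, -, hsum⟩ := hdz z hz
    have : ∀ k, (x k : ℂ) = d z k - if k = l then 1 else 0 := by
      intro k
      rw [hconst z hz k]
      simp only [x]
      split_ifs <;> push_cast <;> ring
    simp only [this, sub_smul, Finset.sum_sub_distrib, hsum, ite_smul, one_smul, zero_smul,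
        Finset.sum_ite_eq', Finset.mem_univ, if_true, sub_self]
  have hdiff : DifferentiableOn ℂ (fun z => ∑ k, (x k : ℂ) • V k z) B2 :=
    DifferentiableOn.fun_sum fun k _ => (hV k).fun_const_smul _
  have hzero := eq_zero_of_eventually hdiff hz₀ hev
  have hx := hind₀ x hzero
  have hxl : x l = 0 := by rw [hx]; rfl
  have hdl : d z₀ l = 0 := (hdz z₀ hz₀r).2.1 l hl
  simp only [x, hdl] at hxl
  norm_num at hxl

end Pool.Agent.Helper70.RK
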