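import Pool.Agent.Helper36.RK.GoalsP

/-!
# Packet RK-LIFT: commuting lifts
-/

open Complex Metric Set Filter Topology MeasureTheory Matrix
open scoped ContDiff ComplexConjugate ComplexOrder Manifold

namespace Pool.Agent.Helper70.RK

open Pool.Agent.Helper95.Lin Pool.Agent.Helper10.SP Pool.Agent.Helper95.RK Pool.Agent.Helper36.RK

theorem toC_add {m n : Type*} (X Y : Matrix m n ℝ) : toC (X + Y) = toC X + toC Y := by
  ext i j; simp [toC]

theorem toC_sub {m n : Type*} (X Y : Matrix m n ℝ) : toC (X - Y) = toC X - toC Y := by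
  ext i j; simp [toC]

theorem toC_smul {m n : Type*} (c : ℝ) (X : Matrix m n ℝ) : toC (c • X) = (c : ℂ) • toC X := by
  ext i j; simp [toC]

/-- The algebra `InK` as a real subspace. -/
noncomputable def KS {b k : ℕ} (D : Set (Cn b)) (lam : Fin (2 * k) → Cn b → Cn k)
    (Om : Matrix (Fin (2 * k)) (Fin (2 * k)) ℝ) :
    Submodule ℝ (Matrix (Fin (2 * k)) (Fin (2 * k)) ℝ) where
  carrier := {κ | InK D lam Om κ}
  zero_mem' := by
    refine ⟨by simp [InSp], fun z _ => ?_⟩
    have : toC (0 : Matrix (Fin (2 * k)) (Fin (2 * k)) ℝ) = 0 := by ext i j; simp [toC]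
    rw [this]; simp
  add_mem' := by
    rintro X Y ⟨h1, h2⟩ ⟨h3, h4⟩
    refine ⟨?_, fun z hz => ?_⟩
    · unfold InSp at *
      rw [Matrix.transpose_add, Matrix.add_mul, Matrix.mul_add]
      calc X * Om + Y * Om + (Om * X.transpose + Om * Y.transpose)
          = (X * Om + Om * X.transpose) + (Y * Om + Om * Y.transpose) := by abel
        _ = 0 := by rw [h1, h3, add_zero]
    · rw [toC_add, Matrix.mul_add, Matrix.add_mul, Matrix.add_mul, h2 z hz, h4 z hz, add_zero]
  smul_mem' := by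
    rintro c X ⟨h1, h2⟩
    refine ⟨?_, fun z hz => ?_⟩
    · unfold InSp at *
      rw [Matrix.transpose_smul, Matrix.smul_mul, Matrix.mul_smul, ← smul_add, h1, smul_zero]
    · rw [toC_smul, Matrix.mul_smul, Matrix.smul_mul, Matrix.smul_mul, h2 z hz, smul_zero]

theorem mem_KS {b k : ℕ} {D : Set (Cn b)} {lam : Fin (2 * k) → Cn b → Cn k}
    {Om κ : Matrix (Fin (2 * k)) (Fin (2 * k)) ℝ} : κ ∈ KS D lam Om ↔ InK D lam Om κ := Iff.rfl

/-- The projection for the trace form. -/
theorem exists_proj {n : ℕ} (S : Submodule ℝ (Matrix (Fin n) (Fin n) ℝ))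
    (hS : ∀ κ ∈ S, (κ * κ).trace = 0 → κ = 0) (X : Matrix (Fin n) (Fin n) ℝ) :
    ∃ κ₀ ∈ S, ∀ κ ∈ S, ((X - κ₀) * κ).trace = 0 := by
  classical
  let B : S →ₗ[ℝ] Module.Dual ℝ S :=
    { toFun := fun κ₀ =>
        { toFun := fun κ => (κ₀.1 * κ.1).trace
          map_add' := fun a b => by
            simp only [Submodule.coe_add, Matrix.mul_add, Matrix.trace_add]
          map_smul' := fun c a => by
            simp only [Submodule.coe_smul, Matrix.mul_smul, Matrix.trace_smul, RingHom.id_apply] }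
      map_add' := fun a b => by
        ext κ
        simp only [Submodule.coe_add, Matrix.add_mul, Matrix.trace_add, LinearMap.coe_mk,
          AddHom.coe_mk, LinearMap.add_apply]
      map_smul' := fun c a => by
        ext κ
        simp only [Submodule.coe_smul, Matrix.smul_mul, Matrix.trace_smul, RingHom.id_apply,
          LinearMap.coe_mk, AddHom.coe_mk, LinearMap.smul_apply] }
  have hB : ∀ κ₀ κ : S, B κ₀ κ = (κ₀.1 * κ.1).trace := fun _ _ => rfl
  have hinj : Function.Injective B := by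
    rw [injective_iff_map_eq_zero]
    intro a ha
    have h1 : B a a = 0 := by rw [ha]; rfl
    rw [hB] at h1
    exact Subtype.ext (hS a.1 a.2 h1)
  have hsur : Function.Surjective B :=
    (LinearMap.injective_iff_surjective_of_finrank_eq_finrank
      (Subspace.dual_finrank_eq (K := ℝ) (V := S)).symm).mp hinj
  let F : Module.Dual ℝ S :=
    { toFun := fun κ => (X * κ.1).trace
      map_add' := fun a b => by
        simp only [Submodule.coe_add, Matrix.mul_add, Matrix.trace_add]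
      map_smul' := fun c a => by
        simp only [Submodule.coe_smul, Matrix.mul_smul, Matrix.trace_smul, RingHom.id_apply] }
  obtain ⟨a, ha⟩ := hsur F
  refine ⟨a.1, a.2, fun κ hκ => ?_⟩
  have h1 : B a ⟨κ, hκ⟩ = F ⟨κ, hκ⟩ := by rw [ha]
  rw [hB] at h1
  have h2 : (a.1 * κ).trace = (X * κ).trace := h1
  rw [Matrix.sub_mul, Matrix.trace_sub, h2, sub_self]

theorem xiOf_sub {b k : ℕ} {D : Set (Cn b)} {lam : Fin (2 * k) → Cn b → Cn k}
    {Om ξ κ : Matrix (Fin (2 * k)) (Fin (2 * k)) ℝ} {V : Cn b → Cn b}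
    (h : XiOf D lam Om V ξ) (hκ : InK D lam Om κ) : XiOf D lam Om V (ξ - κ) := by
  obtain ⟨h1, h2⟩ := h
  obtain ⟨h3, h4⟩ := hκ
  refine ⟨?_, fun z hz => ?_⟩
  · unfold InSp at *
    rw [Matrix.transpose_sub, Matrix.sub_mul, Matrix.mul_sub]
    calc ξ * Om - κ * Om + (Om * ξ.transpose - Om * κ.transpose)
        = (ξ * Om + Om * ξ.transpose) - (κ * Om + Om * κ.transpose) := by abel
      _ = 0 := by rw [h1, h3, sub_zero]
  · rw [h2 z hz, toC_sub, Matrix.mul_sub, Matrix.sub_mul, Matrix.sub_mul, h4 z hz, sub_zero]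

theorem lift (hKCOM : S_KCOM) (hKNOR : S_KNOR) (hKNEG : S_KNEG) : S_LIFT := by
  intro b k m D lam Om hP hne V hV hcomm hξ
  obtain ⟨z₀, hz₀⟩ := hne
  choose ξ hξ using hξ
  have hneg : ∀ κ ∈ KS D lam Om, (κ * κ).trace = 0 → κ = 0 := fun κ hκ h =>
    (hKNEG (Lm lam z₀) Om κ (hP.pol z₀ hz₀) hκ.1 (hκ.2 z₀ hz₀)).2 h
  choose κ₀ hκ₀ horth using fun i => exists_proj (KS D lam Om) hneg (ξ i)
  have hX : ∀ i, XiOf D lam Om (V i) (ξ i - κ₀ i) := fun i => xiOf_sub (hξ i) (hκ₀ i)
  refine ⟨fun i => ξ i - κ₀ i, hX, fun i j => ?_⟩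
  set X := ξ i - κ₀ i with hXi
  set Y := ξ j - κ₀ j with hYj
  have hK : InK D lam Om (X * Y - Y * X) :=
    hKCOM D lam Om hP (V i) (V j) (hV i) (hV j) (hcomm i j) X Y (hX i) (hX j)
  have hN : InK D lam Om ((X * Y - Y * X) * Y - Y * (X * Y - Y * X)) :=
    hKNOR D lam Om hP (V j) (hV j) Y (X * Y - Y * X) (hX j) hK
  have h0 : (X * ((X * Y - Y * X) * Y - Y * (X * Y - Y * X))).trace = 0 := horth i _ hN
  have h1 : ((X * Y - Y * X) * (X * Y - Y * X)).trace = 0 := by
    set K := X * Y - Y * X with hKdef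
    have e1 : (K * K).trace = (X * (Y * K)).trace - (X * (K * Y)).trace := by
      calc (K * K).trace = ((X * Y) * K - (Y * X) * K).trace := by
            rw [← Matrix.sub_mul]
        _ = ((X * Y) * K).trace - ((Y * X) * K).trace := Matrix.trace_sub _ _
        _ = (X * (Y * K)).trace - (X * (K * Y)).trace := by
            rw [Matrix.mul_assoc X Y K, Matrix.mul_assoc Y X K, Matrix.trace_mul_comm Y (X * K),
              Matrix.mul_assoc X K Y]
    rw [Matrix.mul_sub, Matrix.trace_sub] at h0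
    rw [e1]; linarith
  have h2 := hneg _ hK h1
  exact sub_eq_zero.mp h2

end Pool.Agent.Helper70.RK
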