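import Pool.Agent.Helper36.RK.GoalsQ
import Pool.Agent.Helper95.RK.Basics

/-!
# Packet RK-CLQ: closedness of the mixed components
-/

open Complex Metric Set Filter Topology MeasureTheory Matrix
open scoped ContDiff ComplexConjugate ComplexOrder Manifold

namespace Pool.Agent.Helper70.RK

open Pool.Agent.Helper95.Lin Pool.Agent.Helper16.Abund Pool.Agent.Helper92.Orb Pool.Agent.Helper10.SP
  Pool.Agent.Helper95.RK Pool.Agent.Helper36.RK

theorem cd_congr {n : ℕ} {l : Fin n} {f g : Cn n → ℂ} {x : Cn n} (h : f =ᶠ[𝓝 x] g) :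
    cd l f x = cd l g x := by
  unfold cd
  rw [h.fderiv_eq]

theorem cd_base {b k : ℕ} {f : Cn b → ℂ} {x : Cn (b + k)} (hf : DifferentiableAt ℝ f (base x))
    (a : Fin b) : cd (Fin.castAdd k a) (fun y => f (base y)) x = cd a f (base x) := by
  have h1 : HasFDerivAt (fun y : Cn (b + k) => f (base y))
      ((fderiv ℝ f (base x)).comp ((bsL b k).restrictScalars ℝ)) x :=
    HasFDerivAt.comp x hf.hasFDerivAt (((bsL b k).hasFDerivAt (x := x)).restrictScalars ℝ)
  have h2 : ∀ c : ℂ, base (Pi.single (Fin.castAdd k a) c : Cn (b + k)) = Pi.single a c := by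
    intro c
    funext p
    by_cases h : p = a
    · subst h; simp [base]
    · have h' : Fin.castAdd k p ≠ Fin.castAdd k a := by
        intro h3; apply h; simpa using h3
      simp [base, h]
  unfold cd
  rw [h1.fderiv]
  simp only [ContinuousLinearMap.comp_apply, ContinuousLinearMap.coe_restrictScalars', bsL_apply,
    h2]

theorem clq (hWIRT : S_WIRT) : S_CLQ := by
  intro b k N c R P Φ Hf C H hAf hK hF x hx a
  have hopR : IsOpen (Bd c R) := isOpen_iUnion fun j => isOpen_ball
  have hopT : IsOpen (tubeK k (Bd c R)) := isOpen_tubeK hopR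
  have hnx : ∀ᶠ y in 𝓝 x, y ∈ tubeK k (Bd c R) := hopT.mem_nhds hx
  refine ⟨fun i l => ?_, fun m l => ?_⟩
  · have h1 := hK.closed x hx (Fin.castAdd k a) (Fin.natAdd b l) (Fin.natAdd b i)
    have h2 : cd (Fin.castAdd k a) (fun y => H y (Fin.natAdd b i) (Fin.natAdd b l)) x =
        cd (Fin.castAdd k a) (fun y => Hf (base y) i l) x := by
      refine cd_congr ?_
      filter_upwards [hnx] with y hy
      exact congrFun (congrFun (hF y hy) i) l
    have h3 : DifferentiableAt ℝ (fun z => Hf z i l) (base x) :=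
      ((hAf.smH i l).differentiableOn (by simp)).differentiableAt (hopR.mem_nhds hx)
    calc cd (Fin.natAdd b i) (fun y => hA H y a l) x
        = cd (Fin.castAdd k a) (fun y => H y (Fin.natAdd b i) (Fin.natAdd b l)) x := h1
      _ = cd (Fin.castAdd k a) (fun y => Hf (base y) i l) x := h2
      _ = cd a (fun z => Hf z i l) (base x) := cd_base h3 a
  · have hsm : ∀ i j, ContDiffOn ℝ ∞ (fun y => H y i j) (tubeK k (Bd c R)) := hK.smooth
    have hconj : ∀ y ∈ tubeK k (Bd c R), ∀ i j, conj (H y i j) = H y j i := by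
      intro y hy i j
      have h1 := (hK.posDef y hy).1.apply i j
      simpa using congrArg conj h1.symm
    have h1 : ∀ i j, ∀ l', conj (cdb l' (fun y => H y i j) x) = cd l' (fun y => H y j i) x := by
      intro i j l'
      have h2 := (((hWIRT _ hopT _ _ (hsm i j) (hsm i j)).2.2.2.1) l' x hx).1
      rw [← h2]
      refine cd_congr ?_
      filter_upwards [hnx] with y hy using hconj y hy i j
    have h3 := hK.closed x hx (Fin.natAdd b l) (Fin.castAdd k a) (Fin.natAdd b m)
    have h4 : conj (cdb (Fin.natAdd b m) (fun y => hA H y a l) x) =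
        conj (cdb (Fin.natAdd b l) (fun y => hA H y a m) x) := by
      calc conj (cdb (Fin.natAdd b m) (fun y => hA H y a l) x)
          = cd (Fin.natAdd b m) (fun y => H y (Fin.natAdd b l) (Fin.castAdd k a)) x :=
            h1 _ _ _
        _ = cd (Fin.natAdd b l) (fun y => H y (Fin.natAdd b m) (Fin.castAdd k a)) x := h3
        _ = conj (cdb (Fin.natAdd b l) (fun y => hA H y a m) x) := (h1 _ _ _).symm
    have h5 := congrArg conj h4
    simpa using h5

end Pool.Agent.Helper70.RK
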