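import Pool.Agent.Helper36.RK.GoalsQ
import Pool.Agent.Helper95.RK.Basics
import Pool.Agent.Helper8.Abund.FDerivHolo

/-!
# Packet RK-DLQ: the derivative of the periods
-/

open Complex Metric Set Filter Topology MeasureTheory Matrix
open scoped ContDiff ComplexConjugate ComplexOrder Manifold

namespace Pool.Agent.Helper70.RK

open Pool.Agent.Helper95.Lin Pool.Agent.Helper16.Abund Pool.Agent.Helper92.Orb Pool.Agent.Helper10.SP
  Pool.Agent.Helper95.RK Pool.Agent.Helper36.RK

/-- The derivative of `(z, w) ↦ (g z, A z w + β z)`. -/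
theorem fderiv_map {b k : ℕ} {t : TriK b k} {U : Set (Cn b)} (hU : IsOpen U) (ht : t.HolOn U)
    {x : Cn (b + k)} (hx : base x ∈ U) :
    DifferentiableAt ℂ t.map x ∧ ∀ u, base (fderiv ℂ t.map x u) = fderiv ℂ t.g (base x) (base u) ∧
      ∀ q, fib (fderiv ℂ t.map x u) q =
        ∑ r, (t.A (base x) q r * fib u r + fib x r * fderiv ℂ (fun z => t.A z q r) (base x) (base u))
          + fderiv ℂ t.β (base x) (base u) q := by
  obtain ⟨hg, hAA, hβ⟩ := ht
  have hg' : HasFDerivAt (fun y : Cn (b + k) => t.g (base y))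
      ((fderiv ℂ t.g (base x)).comp (bsL b k)) x :=
    HasFDerivAt.comp x ((hg.differentiableAt (hU.mem_nhds hx)).hasFDerivAt)
      ((bsL b k).hasFDerivAt (x := x))
  have hβ' : HasFDerivAt (fun y : Cn (b + k) => t.β (base y))
      ((fderiv ℂ t.β (base x)).comp (bsL b k)) x :=
    HasFDerivAt.comp x ((hβ.differentiableAt (hU.mem_nhds hx)).hasFDerivAt)
      ((bsL b k).hasFDerivAt (x := x))
  have hA' : ∀ q r, HasFDerivAt (fun y : Cn (b + k) => t.A (base y) q r)
      ((fderiv ℂ (fun z => t.A z q r) (base x)).comp (bsL b k)) x := fun q r =>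
    HasFDerivAt.comp x (((hAA q r).differentiableAt (hU.mem_nhds hx)).hasFDerivAt)
      ((bsL b k).hasFDerivAt (x := x))
  let Fq : Fin k → (Cn (b + k) →L[ℂ] ℂ) := fun q =>
    ∑ r, (t.A (base x) q r • (ContinuousLinearMap.proj (R := ℂ) (φ := fun _ : Fin (b + k) => ℂ)
        (Fin.natAdd b r)) + fib x r • (fderiv ℂ (fun z => t.A z q r) (base x)).comp (bsL b k)) +
      (ContinuousLinearMap.proj (R := ℂ) (φ := fun _ : Fin k => ℂ) q).comp
        ((fderiv ℂ t.β (base x)).comp (bsL b k))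
  have hq : ∀ q, HasFDerivAt (fun y : Cn (b + k) => t.map y (Fin.natAdd b q)) (Fq q) x := by
    intro q
    have h1 : (fun y : Cn (b + k) => t.map y (Fin.natAdd b q)) = fun y : Cn (b + k) =>
        ∑ r, t.A (base y) q r * y (Fin.natAdd b r) + t.β (base y) q := by
      funext y
      simp only [TriK.map, ptK_natAdd, TriK.ap, Pi.add_apply, Matrix.mulVec, dotProduct]
      rfl
    rw [h1]
    refine HasFDerivAt.add ?_ ?_
    · refine HasFDerivAt.fun_sum fun r _ => ?_
      exact (hA' q r).mul ((ContinuousLinearMap.proj (R := ℂ) (φ := fun _ : Fin (b + k) => ℂ)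
        (Fin.natAdd b r)).hasFDerivAt (x := x))
    · exact ((ContinuousLinearMap.proj (R := ℂ) (φ := fun _ : Fin k => ℂ) q).hasFDerivAt
        (x := t.β (base x))).comp x hβ'
  let Fp : Fin b → (Cn (b + k) →L[ℂ] ℂ) := fun p =>
    (ContinuousLinearMap.proj (R := ℂ) (φ := fun _ : Fin b => ℂ) p).comp
      ((fderiv ℂ t.g (base x)).comp (bsL b k))
  have hp : ∀ p, HasFDerivAt (fun y : Cn (b + k) => t.map y (Fin.castAdd k p)) (Fp p) x := by
    intro p
    have h1 : (fun y : Cn (b + k) => t.map y (Fin.castAdd k p)) = fun y : Cn (b + k) =>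
        t.g (base y) p := by
      funext y
      simp only [TriK.map, ptK_castAdd]
    rw [h1]
    exact ((ContinuousLinearMap.proj (R := ℂ) (φ := fun _ : Fin b => ℂ) p).hasFDerivAt
        (x := t.g (base x))).comp x hg'
  have hall : HasFDerivAt t.map (ContinuousLinearMap.pi (Fin.addCases Fp Fq)) x := by
    rw [hasFDerivAt_pi']
    intro i
    refine Fin.addCases (fun p => ?_) (fun q => ?_) i
    · have : (ContinuousLinearMap.proj (R := ℂ) (φ := fun _ : Fin (b + k) => ℂ)
          (Fin.castAdd k p)).comp (ContinuousLinearMap.pi (Fin.addCases Fp Fq)) = Fp p := by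
        ext u; simp
      rw [this]; exact hp p
    · have : (ContinuousLinearMap.proj (R := ℂ) (φ := fun _ : Fin (b + k) => ℂ)
          (Fin.natAdd b q)).comp (ContinuousLinearMap.pi (Fin.addCases Fp Fq)) = Fq q := by
        ext u; simp
      rw [this]; exact hq q
  refine ⟨hall.differentiableAt, fun u => ?_⟩
  rw [hall.fderiv]
  refine ⟨?_, fun q => ?_⟩
  · funext p
    simp [base, Fp]
  · simp only [fib, ContinuousLinearMap.coe_pi', Fin.addCases_right, Fq]
    simp

/-- The terms with a fibre index of the invariance identity at a point with fibre coordinate `0`. -/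
theorem hermi_map {b k : ℕ} {t : TriK b k} {U : Set (Cn b)} (hU : IsOpen U) (ht : t.HolOn U)
    {z : Cn b} (hz : z ∈ U) (B : Matrix (Fin (b + k)) (Fin (b + k)) ℂ) (a : Fin b) (l : Fin k) :
    hermi B (fderiv ℂ t.map (ptK z 0) (Pi.single (Fin.castAdd k a) 1))
        (fderiv ℂ t.map (ptK z 0) (Pi.single (Fin.natAdd b l) 1)) =
      (∑ p : Fin b, ∑ q : Fin k, B (Fin.castAdd k p) (Fin.natAdd b q) *
        fderiv ℂ t.g z (Pi.single a 1) p * conj (t.A z q l)) +
      ∑ p : Fin k, ∑ q : Fin k, B (Fin.natAdd b p) (Fin.natAdd b q) *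
        fderiv ℂ t.β z (Pi.single a 1) p * conj (t.A z q l) := by
  obtain ⟨-, hD⟩ := fderiv_map hU ht (x := ptK z 0) (by rwa [base_ptK])
  obtain ⟨h1, h2⟩ := hD (Pi.single (Fin.castAdd k a) 1)
  obtain ⟨h3, h4⟩ := hD (Pi.single (Fin.natAdd b l) 1)
  rw [ecast_eq] at h1 h2
  have he : (Pi.single (Fin.natAdd b l) 1 : Cn (b + k)) = ptK 0 (Pi.single l 1) := ef_eq l
  rw [he] at h3 h4
  simp only [base_ptK, fib_ptK, map_zero, Pi.zero_apply, mul_zero, zero_mul, add_zero,
    Finset.sum_const_zero, zero_add] at h1 h2 h3 h4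
  rw [ecast_eq, he]
  set u := fderiv ℂ t.map (ptK z 0) (ptK (Pi.single a 1) 0) with hu
  set v := fderiv ℂ t.map (ptK z 0) (ptK 0 (Pi.single l 1)) with hv
  have hu1 : ∀ p, u (Fin.castAdd k p) = fderiv ℂ t.g z (Pi.single a 1) p := fun p => congrFun h1 p
  have hu2 : ∀ q, u (Fin.natAdd b q) = fderiv ℂ t.β z (Pi.single a 1) q := fun q => h2 q
  have hv1 : ∀ p, v (Fin.castAdd k p) = 0 := fun p => congrFun h3 p
  have hv2 : ∀ q, v (Fin.natAdd b q) = t.A z q l := by
    intro q
    have h5 := h4 q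
    have h6 : v (Fin.natAdd b q) = ∑ r, t.A z q r * (Pi.single l 1 : Cn k) r := h5
    rw [h6]
    simp [Pi.single_apply]
  unfold hermi
  rw [Fin.sum_univ_add]
  congr 1
  · refine Finset.sum_congr rfl fun p _ => ?_
    rw [Fin.sum_univ_add]
    simp only [hv1, hv2, hu1, map_zero, mul_zero, Finset.sum_const_zero, zero_add]
  · refine Finset.sum_congr rfl fun p _ => ?_
    rw [Fin.sum_univ_add]
    simp only [hv1, hv2, hu2, map_zero, mul_zero, Finset.sum_const_zero, zero_add]

theorem fderiv_tendsto {b : ℕ} {F : Type*} [NormedAddCommGroup F] [NormedSpace ℂ F] {z : Cn b}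
    {f : ℕ → Cn b → F} {G : Cn b → F}
    (hf : ∀ᶠ n in atTop, DifferentiableOn ℂ (f n) (ball z 1)) (hG : DifferentiableOn ℂ G (ball z 1))
    (h : ∀ ε > 0, ∀ᶠ n in atTop, ∀ y ∈ ball z 1, ‖f n y - G y‖ ≤ ε) (u : Cn b) :
    Tendsto (fun n => fderiv ℂ (f n) z u) atTop (𝓝 (fderiv ℂ G z u)) := by
  rw [Metric.tendsto_atTop']
  intro ε hε
  have hz : z ∈ ball z (1 : ℝ) := mem_ball_self one_pos
  have hε' : 0 < ε / (4 * (‖u‖ + 1)) := by positivity
  obtain ⟨N, hN⟩ := eventually_atTop.1 ((h _ hε').and hf)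
  refine ⟨N, fun n hn => ?_⟩
  obtain ⟨h1, h2⟩ := hN n hn.le
  have e1 : DifferentiableOn ℂ (fun y => f n y - G y) (ball z (2 * (1 / 2))) := by
    have : (2 : ℝ) * (1 / 2) = 1 := by norm_num
    rw [this]; exact h2.sub hG
  have e2 := Pool.Agent.Helper8.Abund.norm_fderiv_le_of_bound (r := 1 / 2) (by norm_num) e1
    (M := ε / (4 * (‖u‖ + 1))) (by
      have : (2 : ℝ) * (1 / 2) = 1 := by norm_num
      rw [this]; exact h1)
  have e3 : fderiv ℂ (fun y => f n y - G y) z = fderiv ℂ (f n) z - fderiv ℂ G z :=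
    ((h2.differentiableAt (isOpen_ball.mem_nhds hz)).hasFDerivAt.sub
      (hG.differentiableAt (isOpen_ball.mem_nhds hz)).hasFDerivAt).fderiv
  rw [e3] at e2
  rw [dist_eq_norm, ← _root_.sub_apply]
  calc ‖(fderiv ℂ (f n) z - fderiv ℂ G z) u‖ ≤ ‖fderiv ℂ (f n) z - fderiv ℂ G z‖ * ‖u‖ :=
        ContinuousLinearMap.le_opNorm _ _
    _ ≤ ε / (4 * (‖u‖ + 1)) / (1 / 2) * ‖u‖ := by gcongr
    _ < ε := by
        have hu : 0 ≤ ‖u‖ := norm_nonneg u
        have e4 : ε / (4 * (‖u‖ + 1)) / (1 / 2) * ‖u‖ = ε * (‖u‖ / (2 * (‖u‖ + 1))) := by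
          field_simp
          ring
        rw [e4]
        have e5 : ‖u‖ / (2 * (‖u‖ + 1)) < 1 := by
          rw [div_lt_one (by positivity)]; linarith
        calc ε * (‖u‖ / (2 * (‖u‖ + 1))) < ε * 1 := by gcongr
          _ = ε := mul_one ε

theorem dlq (hWIRT : S_WIRT) (hAFQ : S_AFQ) : S_DLQ := by
  intro b k N c R P Φ Hf C H hAf hK hF lam hper hlim z hz j a l
  obtain ⟨i, hi⟩ := mem_iUnion.1 hz
  obtain ⟨t, s, hBig, hs, hsT, ht⟩ := hlim i (Pi.single j 1)
  have hsum : ∀ y, (∑ j', ((Pi.single j 1 : Fin (2 * k) → ℝ) j' : ℂ) • lam j' y) = lam j y := by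
    intro y
    rw [Finset.sum_eq_single j]
    · simp
    · intro j' _ hj'
      simp [hj']
    · intro h; exact absurd (Finset.mem_univ j) h
  simp only [hsum] at ht
  have hC1 := hAf.Cge
  have hRge := hAf.Rge
  have hzi : ‖z - c i‖ < 2 := by rwa [mem_ball, dist_eq_norm] at hi
  have hb3 : ball z 1 ⊆ ball (c i) 3 := by
    intro y hy
    rw [mem_ball, dist_eq_norm] at hy ⊢
    calc ‖y - c i‖ = ‖(y - z) + (z - c i)‖ := by congr 1; abel
      _ ≤ ‖y - z‖ + ‖z - c i‖ := norm_add_le _ _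
      _ < 3 := by linarith
  have h34 : ball (c i) 3 ⊆ ball (c i) 4 := ball_subset_ball (by norm_num)
  have hz4 : z ∈ ball (c i) 4 := ball_subset_ball (by norm_num) hi
  have hopR : IsOpen (Bd c R) := isOpen_iUnion fun j => isOpen_ball
  have hsub2R : Bd c 2 ⊆ Bd c R := by
    intro y hy
    obtain ⟨m, hm⟩ := mem_iUnion.1 hy
    exact mem_iUnion.2 ⟨m, ball_subset_ball (by linarith) hm⟩
  have hzR : z ∈ Bd c R := hsub2R hz
  have hholo : ∀ n, (t n).HolOn (ball (c i) 4) := fun n => (hAf.holo _ _ (hBig n).1).2.2.1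
  have hlam : DifferentiableOn ℂ (lam j) (ball (c i) 3) :=
    (hper.holo j).mono fun y hy => mem_iUnion.2 ⟨i, hy⟩
  have hz1 : z ∈ ball z (1 : ℝ) := mem_ball_self one_pos
  have hz3 : z ∈ ball (c i) 3 := hb3 hz1
  -- the limits
  have T1 : Tendsto (fun n => (t n).g z) atTop (𝓝 z) := by
    rw [Metric.tendsto_atTop']
    intro ε hε
    obtain ⟨M, hM⟩ := eventually_atTop.1 (ht (ε / 2) (by positivity))
    refine ⟨M, fun n hn => ?_⟩
    rw [dist_eq_norm]
    have := (hM n hn.le z hz3).1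
    linarith
  have T2 : Tendsto (fun n => fderiv ℂ (t n).g z (Pi.single a 1)) atTop (𝓝 (Pi.single a 1)) := by
    have h1 := fderiv_tendsto (z := z) (f := fun n => (t n).g) (G := fun y => y)
      (Eventually.of_forall fun n => (hholo n).1.mono (hb3.trans h34)) differentiableOn_id
      (fun ε hε => by
        filter_upwards [ht ε hε] with n hn y hy using (hn y (hb3 hy)).1) (Pi.single a 1)
    simpa using h1
  have T3 : ∀ q, Tendsto (fun n => (t n).A z q l) atTop (𝓝 ((1 : Matrix (Fin k) (Fin k) ℂ) q l)) := by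
    intro q
    rw [Metric.tendsto_atTop']
    intro ε hε
    obtain ⟨M, hM⟩ := eventually_atTop.1 (ht (ε / 2) (by positivity))
    refine ⟨M, fun n hn => ?_⟩
    rw [dist_eq_norm]
    have := (hM n hn.le z hz3).2.1.entry q l
    rw [Matrix.sub_apply] at this
    linarith
  have key : ∀ ε > 0, ∀ᶠ n in atTop, ∀ y ∈ ball (c i) 3,
      ‖((s n : ℂ)⁻¹) • (t n).β y - lam j y‖ ≤ ε := by
    intro ε hε
    filter_upwards [ht ε hε] with n hn y hy
    have h1 := (hn y hy).2.2
    have h2 : ((s n : ℂ)⁻¹) • (t n).β y - lam j y =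
        ((s n : ℂ)⁻¹) • ((t n).β y - ((s n : ℝ) : ℂ) • lam j y) := by
      rw [smul_sub, smul_smul, inv_mul_cancel₀ (by exact_mod_cast (hs n).ne'), one_smul]
    rw [h2, norm_smul, norm_inv, Complex.norm_real, Real.norm_eq_abs, abs_of_pos (hs n)]
    rw [inv_mul_le_iff₀ (hs n)]
    linarith
  have T4 : Tendsto (fun n => ((s n : ℂ)⁻¹) • (t n).β z) atTop (𝓝 (lam j z)) := by
    rw [Metric.tendsto_atTop']
    intro ε hε
    obtain ⟨M, hM⟩ := eventually_atTop.1 (key (ε / 2) (by positivity))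
    refine ⟨M, fun n hn => ?_⟩
    rw [dist_eq_norm]
    have := hM n hn.le z hz3
    linarith
  have T5 : Tendsto (fun n => ((s n : ℂ)⁻¹) • fderiv ℂ (t n).β z (Pi.single a 1)) atTop
      (𝓝 (fderiv ℂ (lam j) z (Pi.single a 1))) := by
    have h1 := fderiv_tendsto (z := z) (f := fun n y => ((s n : ℂ)⁻¹) • (t n).β y) (G := lam j)
      (Eventually.of_forall fun n => ((hholo n).2.2.mono (hb3.trans h34)).fun_const_smul _)
      (hlam.mono hb3)
      (fun ε hε => by
        filter_upwards [key ε hε] with n hn y hy using hn y (hb3 hy)) (Pi.single a 1)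
    refine h1.congr fun n => ?_
    have h2 : DifferentiableAt ℂ (t n).β z := (hholo n).2.2.differentiableAt (isOpen_ball.mem_nhds hz4)
    rw [fderiv_fun_const_smul h2]
    rfl
  have hsinv : Tendsto (fun n => ((s n : ℂ)⁻¹)) atTop (𝓝 0) := by
    have h1 : Tendsto (fun n => (s n)⁻¹) atTop (𝓝 0) := tendsto_inv_atTop_zero.comp hsT
    have h2 := (Complex.continuous_ofReal.tendsto 0).comp h1
    rw [Complex.ofReal_zero] at h2
    refine h2.congr fun n => ?_
    simp
  -- continuity of the coefficients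
  have hopT : IsOpen (tubeK k (Bd c R)) := isOpen_tubeK hopR
  have hpt : ∀ y : Cn b, base (ptK y (0 : Cn k)) = y := fun y => base_ptK y 0
  have hcpt : Continuous fun y : Cn b => (ptK y (0 : Cn k) : Cn (b + k)) := by
    have h1 : (fun y : Cn b => (ptK y (0 : Cn k) : Cn (b + k))) = fun y => ptL b k (y, 0) := rfl
    rw [h1]
    exact (ptL b k).continuous.comp (by fun_prop)
  have hptT : ptK z (0 : Cn k) ∈ tubeK k (Bd c R) := by
    change base (ptK z (0 : Cn k)) ∈ Bd c R
    rw [base_ptK]; exact hzR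
  have C1 : ∀ p q, ContinuousAt (fun y => hA H (ptK y 0) p q) z := by
    intro p q
    have h1 : ContinuousAt (fun x => H x (Fin.castAdd k p) (Fin.natAdd b q)) (ptK z (0 : Cn k)) :=
      ((hK.smooth (Fin.castAdd k p) (Fin.natAdd b q)).continuousOn).continuousAt
        (hopT.mem_nhds hptT)
    exact ContinuousAt.comp (f := fun y : Cn b => (ptK y (0 : Cn k) : Cn (b + k))) h1
      hcpt.continuousAt
  have C2 : ∀ p i q, ContinuousAt (fun y => cd p (fun y => Hf y i q) y) z := by
    intro p i q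
    exact ((((hWIRT (Bd c R) hopR (fun y => Hf y i q) (fun y => Hf y i q) (hAf.smH i q)
      (hAf.smH i q)).1 p).1).continuousOn).continuousAt (hopR.mem_nhds hzR)
  have C3 : ∀ p m q, ContinuousAt (fun y => ccQ H y p m q) z := by
    intro p m q
    have hsm : ContDiffOn ℝ ∞ (fun y => hA H y p q) (tubeK k (Bd c R)) :=
      hK.smooth (Fin.castAdd k p) (Fin.natAdd b q)
    have h1 : ContinuousAt (cdb (Fin.natAdd b m) (fun y => hA H y p q)) (ptK z (0 : Cn k)) :=
      (((hWIRT _ hopT _ _ hsm hsm).1 (Fin.natAdd b m)).2).continuousOn.continuousAt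
        (hopT.mem_nhds hptT)
    exact (ContinuousAt.comp (f := fun y : Cn b => (ptK y (0 : Cn k) : Cn (b + k))) h1
      hcpt.continuousAt).const_mul _
  -- the identity
  have hev : ∀ᶠ n in atTop, (t n).g z ∈ Bd c 2 := by
    have : Bd c 2 ∈ 𝓝 z := (isOpen_iUnion fun j => isOpen_ball).mem_nhds hz
    exact T1 this
  set G : ℕ → Fin b → Fin k → ℂ := fun n p q =>
    ((s n : ℂ)⁻¹) * hA H (ptK ((t n).g z) 0) p q +
      (1 / 2 : ℂ) * ∑ i, cd p (fun y => Hf y i q) ((t n).g z) * (((s n : ℂ)⁻¹) • (t n).β z) i +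
      ∑ m, ccQ H ((t n).g z) p m q * conj ((((s n : ℂ)⁻¹) • (t n).β z) m) with hG
  have hid : ∀ᶠ n in atTop, ((s n : ℂ)⁻¹) * hA H (ptK z 0) a l =
      (∑ p : Fin b, ∑ q : Fin k, G n p q * fderiv ℂ (t n).g z (Pi.single a 1) p *
        conj ((t n).A z q l)) +
      ∑ p : Fin k, ∑ q : Fin k, Hf ((t n).g z) p q *
        (((s n : ℂ)⁻¹) • fderiv ℂ (t n).β z (Pi.single a 1)) p * conj ((t n).A z q l) := by
    filter_upwards [hev] with n hn
    have h1 := hK.inv _ _ (hBig n).1 (ptK z 0) (by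
      change base (ptK z (0 : Cn k)) ∈ ball (c i) 4
      rw [base_ptK]; exact hz4) (Pi.single (Fin.castAdd k a) 1) (Pi.single (Fin.natAdd b l) 1)
    rw [hermi_map isOpen_ball (hholo n) hz4] at h1
    have h2 : hermi (H (ptK z 0)) (Pi.single (Fin.castAdd k a) 1) (Pi.single (Fin.natAdd b l) 1) =
        hA H (ptK z 0) a l := by
      unfold hermi
      rw [Finset.sum_eq_single (Fin.castAdd k a), Finset.sum_eq_single (Fin.natAdd b l)]
      · simp [hA]
      · intro q _ hq
        simp [Pi.single_apply, hq]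
      · intro h; exact absurd (Finset.mem_univ _) h
      · intro q _ hq
        simp [Pi.single_apply, hq]
      · intro h; exact absurd (Finset.mem_univ _) h
    rw [h2] at h1
    have hmap : (t n).map (ptK z 0) = ptK ((t n).g z) ((t n).β z) := by
      simp [TriK.map, TriK.ap]
    rw [hmap] at h1
    have hsr : ((s n : ℝ) : ℂ) ≠ 0 := by exact_mod_cast (hs n).ne'
    have h3 : ∀ p q, H (ptK ((t n).g z) ((t n).β z)) (Fin.natAdd b p) (Fin.natAdd b q) =
        Hf ((t n).g z) p q := by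
      intro p q
      have h4 := hF (ptK ((t n).g z) ((t n).β z)) (by
        change base (ptK ((t n).g z) ((t n).β z)) ∈ Bd c R
        rw [base_ptK]; exact hsub2R hn)
      rw [base_ptK] at h4
      exact congrFun (congrFun h4 p) q
    have h5 : ∀ p q, ((s n : ℂ)⁻¹) * H (ptK ((t n).g z) ((t n).β z)) (Fin.castAdd k p)
        (Fin.natAdd b q) = G n p q := by
      intro p q
      have h6 := hAFQ c R P Φ Hf C H hAf hK hF ((t n).g z) hn ((t n).β z) p q
      have h7 : H (ptK ((t n).g z) ((t n).β z)) (Fin.castAdd k p) (Fin.natAdd b q) =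
        hA H (ptK ((t n).g z) ((t n).β z)) p q := rfl
      rw [h7, h6, hG]
      simp only [Pi.smul_apply, smul_eq_mul, map_mul, map_inv₀, conj_ofReal, mul_add,
        Finset.mul_sum]
      congr 1
      · congr 1
        refine Finset.sum_congr rfl fun m _ => ?_
        ring
      · refine Finset.sum_congr rfl fun m _ => ?_
        ring
    rw [← h1, mul_add, Finset.mul_sum, Finset.mul_sum]
    congr 1
    · refine Finset.sum_congr rfl fun p _ => ?_
      rw [Finset.mul_sum]
      refine Finset.sum_congr rfl fun q _ => ?_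
      rw [← h5]; ring
    · refine Finset.sum_congr rfl fun p _ => ?_
      rw [Finset.mul_sum]
      refine Finset.sum_congr rfl fun q _ => ?_
      rw [h3, Pi.smul_apply, smul_eq_mul]; ring
  -- pass to the limit
  have TG : ∀ p q, Tendsto (fun n => G n p q) atTop (𝓝 ((1 / 2 : ℂ) *
      ∑ i, cd p (fun y => Hf y i q) z * lam j z i + ∑ m, ccQ H z p m q * conj (lam j z m))) := by
    intro p q
    have h1 : Tendsto (fun n => ((s n : ℂ)⁻¹) * hA H (ptK ((t n).g z) 0) p q) atTop
        (𝓝 (0 * hA H (ptK z 0) p q)) := hsinv.mul ((C1 p q).tendsto.comp T1)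
    have h2 : Tendsto (fun n => (1 / 2 : ℂ) * ∑ i, cd p (fun y => Hf y i q) ((t n).g z) *
        (((s n : ℂ)⁻¹) • (t n).β z) i) atTop
        (𝓝 ((1 / 2 : ℂ) * ∑ i, cd p (fun y => Hf y i q) z * lam j z i)) := by
      refine Tendsto.const_mul _ (tendsto_finsetSum _ fun i _ => ?_)
      exact ((C2 p i q).tendsto.comp T1).mul ((tendsto_pi_nhds.1 T4) i)
    have h3 : Tendsto (fun n => ∑ m, ccQ H ((t n).g z) p m q *
        conj ((((s n : ℂ)⁻¹) • (t n).β z) m)) atTop
        (𝓝 (∑ m, ccQ H z p m q * conj (lam j z m))) := by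
      refine tendsto_finsetSum _ fun m _ => ?_
      exact ((C3 p m q).tendsto.comp T1).mul
        ((Complex.continuous_conj.tendsto _).comp ((tendsto_pi_nhds.1 T4) m))
    have h4 := (h1.add h2).add h3
    rw [zero_mul, zero_add] at h4
    exact h4
  have CH : ∀ p q, ContinuousAt (fun y => Hf y p q) z := fun p q =>
    (hAf.smH p q).continuousOn.continuousAt (hopR.mem_nhds hzR)
  have L1 : Tendsto (fun n => ((s n : ℂ)⁻¹) * hA H (ptK z 0) a l) atTop (𝓝 0) := by
    have := hsinv.mul_const (hA H (ptK z 0) a l)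
    rwa [zero_mul] at this
  have L2 : Tendsto (fun n => (∑ p : Fin b, ∑ q : Fin k, G n p q *
      fderiv ℂ (t n).g z (Pi.single a 1) p * conj ((t n).A z q l)) +
      ∑ p : Fin k, ∑ q : Fin k, Hf ((t n).g z) p q *
        (((s n : ℂ)⁻¹) • fderiv ℂ (t n).β z (Pi.single a 1)) p * conj ((t n).A z q l)) atTop
      (𝓝 ((∑ p : Fin b, ∑ q : Fin k, ((1 / 2 : ℂ) *
        ∑ i, cd p (fun y => Hf y i q) z * lam j z i + ∑ m, ccQ H z p m q * conj (lam j z m)) *
        (Pi.single a 1 : Cn b) p * conj ((1 : Matrix (Fin k) (Fin k) ℂ) q l)) +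
        ∑ p : Fin k, ∑ q : Fin k, Hf z p q * fderiv ℂ (lam j) z (Pi.single a 1) p *
          conj ((1 : Matrix (Fin k) (Fin k) ℂ) q l))) := by
    refine Tendsto.add ?_ ?_
    · refine tendsto_finsetSum _ fun p _ => tendsto_finsetSum _ fun q _ => ?_
      exact ((TG p q).mul ((tendsto_pi_nhds.1 T2) p)).mul
        ((Complex.continuous_conj.tendsto _).comp (T3 q))
    · refine tendsto_finsetSum _ fun p _ => tendsto_finsetSum _ fun q _ => ?_
      exact (((CH p q).tendsto.comp T1).mul ((tendsto_pi_nhds.1 T5) p)).mul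
        ((Complex.continuous_conj.tendsto _).comp (T3 q))
  have hlimeq := tendsto_nhds_unique (L1.congr' hid) L2
  have hfin : 0 = (1 / 2 : ℂ) * ∑ i, cd a (fun y => Hf y i l) z * lam j z i +
      ∑ m, ccQ H z a m l * conj (lam j z m) +
      ∑ p, Hf z p l * fderiv ℂ (lam j) z (Pi.single a 1) p := by
    rw [hlimeq]
    congr 1
    · rw [Finset.sum_eq_single a, Finset.sum_eq_single l]
      · simp
      · intro q _ hq
        simp [Matrix.one_apply, hq]
      · intro h; exact absurd (Finset.mem_univ _) h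
      · intro p _ hp
        refine Finset.sum_eq_zero fun q _ => ?_
        simp [Pi.single_apply, hp]
      · intro h; exact absurd (Finset.mem_univ _) h
    · refine Finset.sum_congr rfl fun p _ => ?_
      rw [Finset.sum_eq_single l]
      · simp
      · intro q _ hq
        simp [Matrix.one_apply, hq]
      · intro h; exact absurd (Finset.mem_univ _) h
  -- the left hand side
  have hlamz : HasFDerivAt (lam j) ((fderiv ℂ (lam j) z).restrictScalars ℝ) z :=
    ((hlam.differentiableAt (isOpen_ball.mem_nhds hz3)).hasFDerivAt).restrictScalars ℝ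
  have hlamp : ∀ p, HasFDerivAt (fun y => lam j y p)
      ((ContinuousLinearMap.proj (R := ℝ) (φ := fun _ : Fin k => ℂ) p).comp
        ((fderiv ℂ (lam j) z).restrictScalars ℝ)) z := fun p =>
    ((ContinuousLinearMap.proj (R := ℝ) (φ := fun _ : Fin k => ℂ) p).hasFDerivAt
      (x := lam j z)).comp z hlamz
  have hHfp : ∀ p, HasFDerivAt (fun y => Hf y p l) (fderiv ℝ (fun y => Hf y p l) z) z := fun p =>
    (((hAf.smH p l).differentiableOn (by simp)).differentiableAt (hopR.mem_nhds hzR)).hasFDerivAt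
  have hder : HasFDerivAt (fun y => ∑ p, Hf y p l * lam j y p)
      (∑ p, (Hf z p l • ((ContinuousLinearMap.proj (R := ℝ) (φ := fun _ : Fin k => ℂ) p).comp
        ((fderiv ℂ (lam j) z).restrictScalars ℝ)) + lam j z p •
          fderiv ℝ (fun y => Hf y p l) z)) z :=
    HasFDerivAt.fun_sum fun p _ => (hHfp p).mul (hlamp p)
  have hI : fderiv ℂ (lam j) z (Pi.single a I) = I • fderiv ℂ (lam j) z (Pi.single a 1) := by
    rw [← map_smul]
    congr 1
    funext q
    by_cases hq : q = a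
    · subst hq; simp
    · simp [hq]
  have hcd : cd a (fun y => ∑ p, Hf y p l * lam j y p) z =
      ∑ p, (cd a (fun y => Hf y p l) z * lam j z p +
        2 * (Hf z p l * fderiv ℂ (lam j) z (Pi.single a 1) p)) := by
    unfold cd
    rw [hder.fderiv]
    simp only [_root_.sum_apply, _root_.add_apply, _root_.smul_apply,
      ContinuousLinearMap.comp_apply, ContinuousLinearMap.proj_apply,
      ContinuousLinearMap.coe_restrictScalars', smul_eq_mul, hI, Pi.smul_apply]
    rw [Finset.mul_sum, ← Finset.sum_sub_distrib]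
    refine Finset.sum_congr rfl fun p _ => ?_
    have : I * I = -1 := I_mul_I
    linear_combination (-(Hf z p l * fderiv ℂ (lam j) z (Pi.single a 1) p)) * this
  rw [hcd, Finset.sum_add_distrib, ← Finset.mul_sum]
  linear_combination (-2 : ℂ) * hfin

end Pool.Agent.Helper70.RK
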